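import Pool.Agent.Q64.Bous.Att

/-!
# MP_3e0609_an, Q1 (negated form): `P_θ 𝒜` has interior points in `L²`

For the semi-dissipative two-dimensional Boussinesq system on the torus the set `P_θ 𝒜` of
temperature components of the weak sigma-attractor does not have empty interior: every mean-free
`θ ∈ L²` is an interior point.
-/

set_option autoImplicit false

namespace Pool.Agent.Results.MP_3e0609_an.ProjectionInterior

open Pool.Agent.Q64.Bous

/-- For all `L, ν, g > 0` the interior of `P_θ 𝒜`, in the norm topology of the space of mean-free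
functions of `L²`, is the whole space; in particular there are a mean-free `θ_*` and `ε > 0` such
that every mean-free `θ` with `‖θ - θ_*‖ < ε` is the temperature component of a point of `𝒜`. -/
theorem result (L ν g : ℝ) (hL : 0 < L) (hν : 0 < ν) (_hg : 0 < g) :
    interior {θ : {θ : L2R // MeanFree θ} | (θ : L2R) ∈ Prod.snd '' Attractor L ν g} = Set.univ ∧
    ∃ θs : L2R, MeanFree θs ∧ ∃ ε > 0, ∀ θ : L2R, MeanFree θ → ‖θ - θs‖ < ε →
      ∃ u : Fin 2 → L2R, (u, θ) ∈ Attractor L ν g := by
  constructor
  · have h : {θ : {θ : L2R // MeanFree θ} | (θ : L2R) ∈ Prod.snd '' Attractor L ν g} =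
        Set.univ := by
      ext θ
      simp only [Set.mem_ofPred_eq, Set.mem_univ, iff_true]
      obtain ⟨u₀, hu⟩ := mem_attractor (g := g) hL hν θ.1 θ.2
      exact ⟨(u₀, θ.1), hu, rfl⟩
    rw [h, interior_univ]
  · refine ⟨0, ?_, 1, one_pos, fun θ hθ _ => mem_attractor hL hν θ hθ⟩
    show ∫ y, (⇑(0 : LpR)) y ∂μT = 0
    rw [MeasureTheory.integral_congr_ae (MeasureTheory.Lp.coeFn_zero ℝ 2 μT)]
    simp

end Pool.Agent.Results.MP_3e0609_an.ProjectionInterior
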